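import Pool.Agent.H32.CH.Targets

/-! Row CX of the board ch_modules (MP_aaa807_co): every vertex of A lies in a component of G[A]. -/

set_option autoImplicit false

namespace Pool.Agent.H22.CH.CX

open Finset Pool.Agent.H32.CH
open scoped Classical

theorem pf_CX : T_CX := by
  intro V _ G A x hx
  have hne : (A.powerset.filter (fun D => x ∈ D ∧
      ∀ y ∈ D, ∀ y' ∈ A, G.Adj y y' → y' ∈ D)).Nonempty := by
    refine ⟨A, ?_⟩
    rw [mem_filter, mem_powerset]
    exact ⟨Subset.refl A, hx, fun _ _ y' hy' _ => hy'⟩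
  obtain ⟨C, hC, hmin⟩ := exists_min_image _ (fun D : Finset V => D.card) hne
  rw [mem_filter, mem_powerset] at hC
  obtain ⟨hCA, hxC, hcl⟩ := hC
  have key : ∀ X : Finset V, X ⊆ C → x ∈ X → (∀ y ∈ X, ∀ y' ∈ C, G.Adj y y' → y' ∈ X) →
      X = C := by
    intro X hX hxX hXc
    refine eq_of_subset_of_card_le hX (hmin X ?_)
    rw [mem_filter, mem_powerset]
    exact ⟨hX.trans hCA, hxX, fun y hy y' hy' h => hXc y hy y' (hcl y (hX hy) y' hy' h) h⟩
  refine ⟨C, ⟨hCA, ⟨⟨x, hxC⟩, ?_⟩, hcl⟩, hxC⟩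
  intro X hX hXne hXc
  by_cases hxX : x ∈ X
  · exact key X hX hxX hXc
  · exfalso
    have hdiff : C \ X = C := by
      refine key (C \ X) sdiff_subset (mem_sdiff.2 ⟨hxC, hxX⟩) ?_
      intro y hy y' hy' h
      rw [mem_sdiff] at hy ⊢
      exact ⟨hy', fun hy'X => hy.2 (hXc y' hy'X y hy.1 h.symm)⟩
    obtain ⟨z, hz⟩ := hXne
    have hzC : z ∈ C \ X := by rw [hdiff]; exact hX hz
    exact (mem_sdiff.1 hzC).2 hz

end Pool.Agent.H22.CH.CX
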